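import Pool.Agent.H37.Spc6

namespace Pool.Agent.Results.MP_300f36_lc.AllEight

open Pool.Agent.H37.Spc Filter Asymptotics

theorem lin (h : Head) (b : Branch) (m : Mode) (hm : m = Mode.strong ∨ b = Branch.nondet) :
    Tight h b m (fun n => (n : ℝ)) := by
  refine ⟨⟨M1, id, ⟨fun _ => M1_realtime, fun _ => rfl⟩, M1_nonreg, ?_, isBigO_refl _ _⟩, ?_⟩
  · cases m
    · exact M1_strong
    · exact fun w _ => M1_strong w
  · rintro ⟨M, s, hc, hr, hb, ho⟩
    cases m
    · exact PDA.not_littleO_strong hb hr ho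
    · exact PDA.not_littleO_middle (hc.2 (hm.resolve_left (by simp))) hb hr ho

theorem result :
    (∀ (h : Head) (b : Branch), Tight h b Mode.strong (fun n => (n : ℝ))) ∧
    (∀ h : Head, Tight h Branch.nondet Mode.middle (fun n => (n : ℝ))) ∧
    (∀ h : Head, Tight h Branch.alt Mode.middle
      (fun n => ((Nat.log 2 (Nat.log 2 n) : ℕ) : ℝ))) := by
  refine ⟨fun h b => lin h b _ (Or.inl rfl), fun h => lin h _ _ (Or.inr rfl), fun h => ?_⟩
  refine ⟨⟨M2, fun n => 2 * (Nat.log 2 (Nat.log 2 n) + 1), ⟨fun _ => M2_realtime, fun e => by cases e⟩, M2_nonreg, M2_middle,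
    loglog_bigO⟩, ?_⟩
  rintro ⟨M, s, -, hr, hb, ho⟩
  exact PDA.not_littleO_loglog hb hr ho

end Pool.Agent.Results.MP_300f36_lc.AllEight
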